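import Pool.Agent.helper80.T1.SpecO
import Pool.Agent.helper62.HF.AllV

/-!
# Row t1:OTA (MP_07c750_an, project T1): the effective tail
-/

set_option autoImplicit false

open scoped MatrixGroups ContDiff Topology UpperHalfPlane ComplexConjugate
open UpperHalfPlane MeasureTheory Filter Set

namespace Pool.Agent.T1

open Pool.Agent.RS Pool.Agent.MS Pool.Agent.HV

theorem OTA_core (hOKB : OKB_stmt) (hSCX : HV.SCX_stmt) (hGKF : MS.GKF_stmt) (hSTB : MS.STB_stmt)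
    (hCV1 : RS.CV1_stmt) (hFL0 : RS.FL0_stmt) (hGMG : RS.GMG_stmt) : OTA_stmt := by
  obtain ⟨K0, hK0, hK⟩ := hOKB
  obtain ⟨m3, hm3⟩ : ∃ m : ℝ, m = (mG {k : SL(2, ℝ) | ∀ i j, |k.1 i j| ≤ 3}).toReal := ⟨_, rfl⟩
  have hZ3 : mG {k : SL(2, ℝ) | ∀ i j, |k.1 i j| ≤ 3} < ⊤ := hGMG.2.1 _ TAI_cpt
  have hm30 : 0 ≤ m3 := by rw [hm3]; exact ENNReal.toReal_nonneg
  refine ⟨K0 ^ 2 * m3 ^ 2 + 1, by nlinarith [sq_nonneg (K0 * m3)], ?_⟩
  intro Γ F β0 α0 β1 α M M' T δ1 hΓ hF hM hM' hSβ0 hSα0 hSβ1 hSα hT hδ1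
  have hβ0 := hSβ0.sb
  have hα0 := hSα0.sb
  have hβ1 := hSβ1.sb
  have hα := hSα.sb
  have h1 := hK β0 α0 β1 α M M' hM hM' hSβ0 hSα0 hSβ1 hSα
  obtain ⟨C1, hC1e⟩ : ∃ C1 : ℝ, C1 = K0 * M ^ 2 * M' ^ 6 := ⟨_, rfl⟩
  have hC1 : 0 < C1 := by rw [hC1e]; positivity
  have hE : 0 < Real.exp (-T) := Real.exp_pos _
  have hE1 : Real.exp (-T) ≤ 1 := Real.exp_le_one_iff.mpr (by linarith)
  have hZ : mG (TAI_Z δ1) < ⊤ := lt_of_le_of_lt (measure_mono fun k hk => hk.1) hZ3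
  obtain ⟨m, hm⟩ : ∃ m : ℝ, m = (mG (TAI_Z δ1)).toReal := ⟨_, rfl⟩
  have hm0 : 0 ≤ m := by rw [hm]; exact ENNReal.toReal_nonneg
  have hmm : m ≤ m3 := by
    rw [hm, hm3]
    exact ENNReal.toReal_mono hZ3.ne (measure_mono fun k hk => hk.1)
  have hmZ : mG (TAI_Z δ1) = ENNReal.ofReal m := by rw [hm, ENNReal.ofReal_toReal hZ.ne]
  obtain ⟨C', hC'⟩ : ∃ C' : ℝ, C' = C1 * Real.exp (-(T / 2)) / (Real.exp (-T) * δ1) ^ 2 * m := ⟨_, rfl⟩
  have hC'0 : 0 ≤ C' := by rw [hC']; positivity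
  have hsb : SB (1 / 4) (st (-T) β0) := by
    refine (hSTB.2.2.2.2.1 (Real.exp (-T) * (1 / 4)) (1 / 4) (st (-T) β0) (by linarith)).1 ?_
    exact hSTB.2.2.1 (1 / 4) (-T) β0 hβ0
  have hTB : TB (1 / 4) (pc (st (-T) β0) α0) := (hCV1.2.2 (1 / 4) α0 (st (-T) β0) hα0 hsb).1
  have hTB' : TB (1 / 4) (pc β1 α) := (hCV1.2.2 (1 / 4) α β1 hα hβ1).1
  intro r s D hr hs hsm hsi hD hloc
  have hr0 : 0 < r := by linarith
  have hTs := hFL0.2.1 _ r _ hTB
  have hTs' := hFL0.2.1 _ r _ hTB'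
  have hG : ∀ k : SL(2, ℝ), ∫ z : ℍ, pk r (pc β1 α) z * conj (pk r (pc (st (-T) β0) α0) (k⁻¹ • z)) =
      conj (gk r (pc (st (-T) β0) α0) (pc β1 α) k⁻¹) := fun k => TAI_G _ _ k
  have hkey := hSCX Γ F (pk r (pc (st (-T) β0) α0)) (pk r (pc β1 α)) s D (TAI_Z δ1) (C' / r ^ 2) hΓ hF
    (TAI_cont hTs.1) hTs.2 (TAI_cont hTs'.1) hTs'.2 hs hsm hsi hD (TAI_Zm δ1) (by positivity) (by
      intro h k hh hk hne
      constructor
      · apply TAI_ent3
        refine (hGKF β0 α0 β1 α T r k⁻¹ hβ0 hα0 hβ1 hα hT hr).1 ?_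
        intro h0
        apply hne
        rw [hG k, h0, map_zero]
      · have h2 : ∃ z : ℍ, pk r (pc β1 α) z * conj (pk r (pc (st (-T) β0) α0) (k⁻¹ • z)) ≠ 0 := by
          by_contra hcon
          apply hne
          have h3 : ∀ z : ℍ, pk r (pc β1 α) z * conj (pk r (pc (st (-T) β0) α0) (k⁻¹ • z)) = 0 := by
            intro z
            by_contra h4
            exact hcon ⟨z, h4⟩
          have h5 : (fun z : ℍ => pk r (pc β1 α) z * conj (pk r (pc (st (-T) β0) α0) (k⁻¹ • z))) = fun _ => 0 :=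
            funext h3
          rw [h5, integral_zero]
        obtain ⟨z, hz⟩ := h2
        have hz1 : pc β1 α z ≠ 0 := by
          intro h0
          apply hz
          unfold pk
          rw [h0, zero_mul, zero_mul]
        have hz2 : pc (st (-T) β0) α0 (k⁻¹ • z) ≠ 0 := by
          intro h0
          apply hz
          unfold pk
          rw [h0, zero_mul, map_zero, mul_zero]
        refine hloc h k (k⁻¹ • z) hh hk hz2 ?_
        rw [smul_inv_smul]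
        exact hz1) (by
      have hb : ∀ k ∈ TAI_Z δ1, ENNReal.ofReal ‖∫ z : ℍ, pk r (pc β1 α) z * conj (pk r (pc (st (-T) β0) α0) (k⁻¹ • z))‖ ≤
          ENNReal.ofReal (C1 * Real.exp (-(T / 2)) / (Real.exp (-T) * r * δ1) ^ 2) := by
        intro k hk
        apply ENNReal.ofReal_le_ofReal
        rw [hG k, RCLike.norm_conj]
        refine (h1 T r k⁻¹ hT hr).trans ?_
        rw [(TAI_e k).2.2.1, abs_neg, ← hC1e]
        have hpos : 0 < Real.exp (-T) * r * δ1 := by positivity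
        have hle : Real.exp (-T) * r * δ1 ≤ 1 + Real.exp (-T) * r * |k.1 1 0| := by
          have h6 : Real.exp (-T) * r * δ1 ≤ Real.exp (-T) * r * |k.1 1 0| :=
            mul_le_mul_of_nonneg_left hk.2.le (by positivity)
          linarith
        exact div_le_div_of_nonneg_left (by positivity) (by positivity) (pow_le_pow_left₀ hpos.le hle 2)
      refine (setLIntegral_mono' (TAI_Zm δ1) hb).trans ?_
      rw [setLIntegral_const, hmZ, ← ENNReal.ofReal_mul (by positivity)]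
      apply ENNReal.ofReal_le_ofReal
      apply le_of_eq
      rw [hC']
      field_simp)
  have hi0 : 0 ≤ iR F (fun g => ‖s g‖ ^ 2) := by
    unfold iR
    exact integral_nonneg fun g => by positivity
  have hr2 : 0 < r ^ 2 := by positivity
  have h7 := mul_le_mul_of_nonneg_left hkey hr2.le
  refine h7.trans ?_
  have h8 : r ^ 2 * ((C' / r ^ 2) ^ 2 * iR F (fun g => ‖s g‖ ^ 2)) = C' ^ 2 / r ^ 2 * iR F (fun g => ‖s g‖ ^ 2) := by
    field_simp
  rw [h8]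
  apply mul_le_mul_of_nonneg_right _ hi0
  have h9 : C' ^ 2 = K0 ^ 2 * m ^ 2 * (M ^ 4 * M' ^ 12 * (Real.exp (3 * T) / δ1 ^ 4)) := by
    have e1 : Real.exp (-(T / 2)) ^ 2 = Real.exp (-T) := by
      rw [← Real.exp_nat_mul]
      congr 1
      push_cast
      ring
    have e2 : Real.exp (3 * T) * Real.exp (-T) ^ 4 = Real.exp (-T) := by
      rw [← Real.exp_nat_mul, ← Real.exp_add]
      congr 1
      push_cast
      ring
    rw [hC', hC1e, mul_pow, div_pow, mul_pow, e1]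
    have h10 : Real.exp (-T) / ((Real.exp (-T) * δ1) ^ 2) ^ 2 = Real.exp (3 * T) / δ1 ^ 4 := by
      rw [div_eq_div_iff (by positivity) (by positivity)]
      rw [← e2]
      nth_rewrite 1 [← e2]
      ring
    calc _ = (K0 * M ^ 2 * M' ^ 6) ^ 2 * (Real.exp (-T) / ((Real.exp (-T) * δ1) ^ 2) ^ 2) * m ^ 2 := by ring
      _ = _ := by rw [h10]; ring
  have h11 : K0 ^ 2 * m ^ 2 ≤ K0 ^ 2 * m3 ^ 2 + 1 := by
    have h12 : m ^ 2 ≤ m3 ^ 2 := pow_le_pow_left₀ hm0 hmm 2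
    have h13 : K0 ^ 2 * m ^ 2 ≤ K0 ^ 2 * m3 ^ 2 := mul_le_mul_of_nonneg_left h12 (sq_nonneg K0)
    linarith
  rw [h9]
  calc K0 ^ 2 * m ^ 2 * (M ^ 4 * M' ^ 12 * (Real.exp (3 * T) / δ1 ^ 4)) / r ^ 2 ≤
      (K0 ^ 2 * m3 ^ 2 + 1) * (M ^ 4 * M' ^ 12 * (Real.exp (3 * T) / δ1 ^ 4)) / r ^ 2 := by
        apply div_le_div_of_nonneg_right _ hr2.le
        apply mul_le_mul_of_nonneg_right h11
        positivity
    _ = _ := by
        field_simp

theorem OTA_proof (hOKB : OKB_stmt) : OTA_stmt :=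
  OTA_core hOKB HV.A_SCX MS.A_GKF MS.A_STB RS.A_CV1 RS.A_FL0 RS.A_GMG

end Pool.Agent.T1
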